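import Pool.Agent.MWGX.StmtsA

/-!
# MWGX, row INS: insertion of `A^n` behind `A A M`
-/

set_option autoImplicit false

namespace Pool.Agent.MWGX.H64

open Pool.Agent.Helper14_MV Pool.Agent.Helper2_MV
open Pool.Agent.MWK (pre)
open Pool.Agent.MWGN (nn)
open Pool.Agent.MWGQ (pw)

theorem ins : InsStmt := by
  intro n p A M R w w' hw hw' h
  obtain ⟨K, hK⟩ : ∃ K, K = p ++ (A ++ (A ++ M)) := ⟨_, rfl⟩
  have e : w = K ++ R := by rw [hw, hK]; simp
  have e' : w' = K ++ (pw n A ++ R) := by rw [hw', hK]; simp
  have cK : ∀ d, K.count d = p.count d + (A.count d + (A.count d + M.count d)) := by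
    intro d
    rw [hK]
    simp only [List.count_append]
  have cw : ∀ d, w.count d = K.count d + R.count d := by
    intro d
    rw [e, List.count_append]
  have cw' : ∀ d, w'.count d = K.count d + (n * A.count d + R.count d) := by
    intro d
    rw [e', List.count_append, List.count_append, count_pw]
  have hz : ∀ d, A.count d = 0 → n * A.count d = 0 := by
    intro d hd
    rw [hd, Nat.mul_zero]
  have AK : ∀ q, q ∈ A → q ∈ K := by
    intro q hq
    rw [hK]
    simp [hq]
  -- the two cases
  have inK : ∀ d q, q ∈ K → nn w d q = (pre K q).count d ∧ nn w' d q = (pre K q).count d := by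
    intro d q hq
    unfold nn
    rw [e, e', MWK.pre_append_mem hq, MWK.pre_append_mem hq]
    exact ⟨rfl, rfl⟩
  have outK : ∀ d q, q ∉ K → nn w d q = K.count d + (pre R q).count d ∧
      nn w' d q = K.count d + (n * A.count d + (pre R q).count d) := by
    intro d q hq
    have hqA : q ∉ pw n A := fun hc => hq (AK q (mem_pw hc))
    unfold nn
    rw [e, e', MWK.pre_append hq, MWK.pre_append hq, MWK.pre_append hqA, List.count_append,
      List.count_append, List.count_append, count_pw]
    exact ⟨rfl, rfl⟩
  refine ⟨⟨?_, ?_, ?_, ?_, ?_⟩, ?_, ?_⟩
  · intro d
    have h1 := cw d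
    have h2 := cw' d
    have h3 := cK d
    have h4 := hz d
    generalize n * A.count d = t at h2 h4
    omega
  · intro d
    have h1 := cw d
    have h2 := cw' d
    have h3 := cK d
    have h4 := hz d
    generalize n * A.count d = t at h2 h4
    omega
  · intro s _ d _
    by_cases hs : s ∈ K
    · rw [(inK d s hs).1, (inK d s hs).2]
    · have h1 := outK d s hs
      have h3 := cK d
      have h4 := hz d
      generalize n * A.count d = t at h1 h4
      omega
  · intro s _ d _
    by_cases hs : s ∈ K
    · rw [(inK d s hs).1, (inK d s hs).2]
    · have h1 := outK d s hs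
      have h3 := cK d
      have h4 := hz d
      generalize n * A.count d = t at h1 h4
      omega
  · intro s hs1 d _
    have g1 := cw d
    have g2 := cw' d
    have g3 := cK d
    have g4 := hz d
    by_cases hs : s ∈ K
    · obtain ⟨k1, k2⟩ := inK d s hs
      have hsA : s ∉ A := by
        intro hc
        have q1 := List.count_pos_iff.2 hc
        have q2 := cK s
        have q3 := cw s
        omega
      by_cases hdA : d ∈ A
      · have hA1 : 1 ≤ A.count d := List.count_pos_iff.2 hdA
        -- both equalities fail
        have hlt : (pre K s).count d < K.count d + R.count d := by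
          by_cases hsp : s ∈ p
          · have e1 : pre K s = pre p s := by rw [hK, MWK.pre_append_mem hsp]
            have e2 := MWK.count_pre_le p d s
            rw [e1]
            omega
          · have hsM : s ∈ M := by
              rw [hK, List.mem_append, List.mem_append, List.mem_append] at hs
              rcases hs with h1 | h1 | h1 | h1
              · exact absurd h1 hsp
              · exact absurd h1 hsA
              · exact absurd h1 hsA
              · exact h1
            rcases h with h1 | h1
            · have q1 := List.count_pos_iff.2 (h1 d hdA)
              have q2 := MWK.count_pre_le K d s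
              omega
            · have := h1 s hsM
              omega
        generalize n * A.count d = t at g2 g4
        omega
      · have hA0 : A.count d = 0 := List.count_eq_zero.2 hdA
        have g5 := g4 hA0
        omega
    · have k := outK d s hs
      generalize n * A.count d = t at g2 g4 k
      omega
  · intro d q
    by_cases hq : q ∈ K
    · rw [(inK d q hq).1, (inK d q hq).2]
    · rw [(outK d q hq).1, (outK d q hq).2]
      have h1 : K.count d + (n * A.count d + (pre R q).count d) =
          (K.count d + (pre R q).count d) + n * A.count d := by ring
      rw [h1]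
      have h2 : (K.count d + (pre R q).count d) + 0 ≡
          (K.count d + (pre R q).count d) + n * A.count d [MOD n] :=
        Nat.ModEq.add_left _ ((Nat.modEq_zero_iff_dvd).2 (dvd_mul_right _ _)).symm
      rw [Nat.add_zero] at h2
      exact h2
  · intro d q
    by_cases hq : q ∈ K
    · rw [(inK d q hq).1, (inK d q hq).2]
    · have h1 := outK d q hq
      have h3 := cK d
      have h4 := hz d
      generalize n * A.count d = t at h1 h4
      omega

end Pool.Agent.MWGX.H64
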